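import Pool.Agent.Results.MP_87f965_ag.RandomConicBundles
import Pool.Agent.R867.B.Rand7
import Pool.Agent.W560.HP.Fin2
import Pool.Agent.W376.HP.NRM

/-!
# The Hilbert property of 100% of the everywhere locally soluble hypersurfaces of bidegree (2, 2)

Let `m ≥ 2` and `n ≥ 1`. Among the integral forms `f` of bidegree `(2, 2)` on `ℙ^m × ℙ^n` with
coefficients bounded by `H` whose hypersurface `X_f` has points over the real numbers and over all
the `p`-adic fields, a proportion tending to `1` as `H → ∞` has the following property: for all
number fields `L` (more generally for all finitely generated fields of characteristic zero), `X_f` is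
integral over `L` and has the Hilbert property over `L`, and so have all the integral schemes locally
of finite type over `L` which are birational to it.

Up to the order of the factors these are all the products of two projective spaces except
`ℙ^1 × ℙ^1`, where `X_f` is a curve of genus one (if smooth) and the Hilbert property fails.

For `m = 2` (conic bundles) this is a theorem of the starting files (`RandomConicBundles`); for `m ≥ 3`
the proof combines the theorem `Pool.Agent.R867.B.rand2` of the starting library (for almost all the
forms the function field of `X_f` embeds relatively algebraically closed into a field of rational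
functions, over all fields of characteristic zero) with the Hilbert property of such varieties.
-/

set_option autoImplicit false

namespace Pool.Agent.Results.MP_87f965_ag.BidegreeTwoTwo

open AlgebraicGeometry CategoryTheory W560.HP

/-- The coordinates on `ℙ^(n 0) × ℙ^(n 1)`: the block `i` has `n i + 1` variables. -/
abbrev Coord (n : Fin 2 → ℕ) : Type := Σ i : Fin 2, Fin (n i + 1)

/-- The forms of bidegree `(2, 2)` on `ℙ^(n 0) × ℙ^(n 1)` whose coefficients are integers of absolute
value at most `H`. -/
def Forms (n : Fin 2 → ℕ) (H : ℕ) : Set (MvPolynomial (Coord n) ℤ) :=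
  {f | (∀ s ∈ f.support, ∀ i : Fin 2, ∑ j : Fin (n i + 1), s ⟨i, j⟩ = 2) ∧
    ∀ s, |f.coeff s| ≤ (H : ℤ)}

/-- `x` represents a point over the field `L` of the hypersurface `X_f`: `f = 0` in
`ℙ^(n 0) × ℙ^(n 1)`: both its blocks are different from zero and `f(x) = 0`. -/
def IsPoint {n : Fin 2 → ℕ} {L : Type} [Field L] (f : MvPolynomial (Coord n) ℤ) (x : Coord n → L) :
    Prop :=
  (∀ i : Fin 2, (fun j : Fin (n i + 1) => x ⟨i, j⟩) ≠ 0) ∧ MvPolynomial.aeval x f = 0

/-- The hypersurface `X_f` has points over the real numbers and over all the `p`-adic fields. -/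
def LocallySoluble {n : Fin 2 → ℕ} (f : MvPolynomial (Coord n) ℤ) : Prop :=
  (∃ y : Coord n → ℝ, IsPoint f y) ∧
    ∀ (p : ℕ) [Fact p.Prime], ∃ z : Coord n → ℚ_[p], IsPoint f z

/-- The form `f` with its coefficients considered as elements of the field `L`. -/
noncomputable def formOver {n : Fin 2 → ℕ} (L : Type) [Field L] (f : MvPolynomial (Coord n) ℤ) :
    MvPolynomial (Coord n) L :=
  MvPolynomial.map (Int.castRingHom L) f

/-- `y` is a generic zero of the form `F` over `L`: the polynomials vanishing at `y` are exactly the
multiples of `F`. -/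
def GenericZero {n : Fin 2 → ℕ} {L Q : Type} [Field L] [Field Q] [Algebra L Q]
    (F : MvPolynomial (Coord n) L) (y : Coord n → Q) : Prop :=
  ∀ G : MvPolynomial (Coord n) L, MvPolynomial.aeval y G = 0 ↔ F ∣ G

/-- The field generated over `L` by the ratios of the coordinates of `y` in the same block. -/
def ratioField {n : Fin 2 → ℕ} (L : Type) {Q : Type} [Field L] [Field Q] [Algebra L Q]
    (y : Coord n → Q) : IntermediateField L Q :=
  IntermediateField.adjoin L {x | ∃ (i : Fin 2) (j j' : Fin (n i + 1)), x = y ⟨i, j⟩ / y ⟨i, j'⟩}

/-- The integral `L`-scheme `X` has, compatibly with `L`, the function field of the hypersurface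
`F = 0` in `ℙ^(n 0) × ℙ^(n 1)`: the field generated over `L` by the ratios `y i j / y i j'` of the
coordinates of a generic zero `y` of `F`. -/
def BirationalTo {n : Fin 2 → ℕ} (L : Type) [Field L] (F : MvPolynomial (Coord n) L)
    (X : Scheme.{0}) [IsIntegral X] (p : X ⟶ Spec (CommRingCat.of L)) : Prop :=
  ∃ (Q : Type) (_ : Field Q) (_ : Algebra L Q) (y : Coord n → Q),
    GenericZero F y ∧ Pool.Agent.TH178.HI.HasFunctionField L X p (ratioField L y)

/-- The Hilbert property over `L` of the hypersurface `F = 0`, in the form: all the integral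
`L`-schemes `X` locally of finite type which are birational to it have the Hilbert property, with
respect to the covers of degree `> 1`, and also with respect to the covers which are not
isomorphisms if `X` is normal. -/
def Hilbert {n : Fin 2 → ℕ} (L : Type) [Field L] (F : MvPolynomial (Coord n) L) : Prop :=
  ∀ (X : Scheme.{0}) (p : X ⟶ Spec (CommRingCat.of L)) [IsIntegral X] [LocallyOfFiniteType p],
    BirationalTo L F X p → HilbertProperty L X p ∧
      ((∀ x : X, IsIntegrallyClosed (X.presheaf.stalk x)) → HilbertPropertyIso L X p)

/-- `X_f` is integral and has the Hilbert property over all the finitely generated fields `L` of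
characteristic zero, for example over all number fields. -/
def Good {n : Fin 2 → ℕ} (f : MvPolynomial (Coord n) ℤ) : Prop :=
  ∀ (L : Type) [Field L] [CharZero L],
    (∃ S : Finset L, IntermediateField.adjoin ℚ (S : Set L) = ⊤) →
    Irreducible (formOver L f) ∧ Hilbert L (formOver L f)

theorem good_of_real {n : Fin 2 → ℕ} (f : MvPolynomial (Coord n) ℤ)
    (hf : Pool.Agent.R867.B.RealH f) : Good f := by
  intro L _ _ hL
  obtain ⟨h1, h2⟩ := hf L
  refine ⟨h1, fun X p _ _ hX => ?_⟩
  obtain ⟨Q, _, _, y, hy, he⟩ := hX
  have hP : HilbertProperty L X p :=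
    Pool.Agent.TH178.HI.Realizable.hilbert hL (h2 Q y hy) X p he
  exact ⟨hP, fun hX' => iso_of_hp Pool.Agent.W376.HP.nrm L X p hX' hP⟩

/-- 100% of the everywhere locally soluble hypersurfaces of bidegree `(2, 2)` in
`ℙ^(n 0) × ℙ^(n 1)`, `n 0 ≥ 2`, `n 1 ≥ 1`, are integral and have the Hilbert property over all
finitely generated fields of characteristic zero. -/
theorem result (n : Fin 2 → ℕ) (h0 : 2 ≤ n 0) (h1 : 1 ≤ n 1) :
    Filter.Tendsto (fun H : ℕ =>
      (({f | f ∈ Forms n H ∧ LocallySoluble f ∧ Good f} : Set _).ncard : ℝ) /
        (({f | f ∈ Forms n H ∧ LocallySoluble f} : Set _).ncard : ℝ))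
      Filter.atTop (nhds 1) := by
  rcases Nat.eq_or_lt_of_le h0 with h2 | h2
  · have hn : ∀ i, 1 ≤ n i := by
      intro i
      fin_cases i
      · exact le_trans (by norm_num) h0
      · exact h1
    exact RandomConicBundles.result 2 n le_rfl hn ⟨0, h2.symm⟩
  · have h := Pool.Agent.R867.B.rand2 n h2 h1 Good good_of_real
    have he : ∀ f : MvPolynomial (Coord n) ℤ,
        Pool.Agent.Y716.M.ElsB f ↔ LocallySoluble f := fun f => Iff.rfl
    refine h.congr (fun H => ?_)
    congr 2

end Pool.Agent.Results.MP_87f965_ag.BidegreeTwoTwo
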