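import Pool.Agent.N220.CF.Cn
import Pool.Agent.Results.MP_87f965_ag.ThinFamilyNormForms

/-!
# Rational points outside thin sets on the varieties `N_{Kᵢ/ℚ}(zᵢ) = cᵢ (f(t) + k)` for the denominators `k` of the convergents
# of almost every number

Let `f` be an integral polynomial of degree at least two in `d + 1` variables, let the `cᵢ` be nonzero integers, and let the
`Kᵢ` be abelian number fields (subfields of a given cyclotomic field) with class numbers prime to their degrees, such that `-1`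
is a norm or all norms are nonnegative. There is ONE null set of real numbers, for all `f`, `cᵢ`, `Kᵢ` and all thin sets, and
there are finite sets `T₀(K, f, c)` of primes, such that for every real `ξ` outside of the null set, for all finite
`T ⊇ T₀(K, f, c)`, all `N`, every thin subset `Θ` of the affine space of dimension `d + 1` over `ℚ` and all but finitely many of
the convergents `p / q` of `ξ` the following holds for the varieties `V_k : N_{Kᵢ/ℚ}(zᵢ) = cᵢ (f(t) + k) ≠ 0`, `k = ± q`: under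
the condition at the real place every family of `p`-adic points of level `N`, `p` in `T`, is approximated in the coordinates `t`
by a rational point with `t` outside `Θ`. If all `cᵢ` are `1` and the degree of `f` is prime to those of the `Kᵢ` (and odd, or
`-1` is a norm from all `Kᵢ`) then `T` is any finite set of primes, for example the empty set, and there is no condition at the
real place: all but finitely many of these `V_k` have rational points outside `Θ`. The same holds for all simultaneous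
approximations: for almost all `α` in `R^n` and all `b` for all but finitely many `q` with `|q α_j - p_j| ≤ b q^(-1/n)` for some
integers `p_j`.
-/

set_option autoImplicit false

namespace Pool.Agent.Results.MP_87f965_ag.ConvergentDenominators

open Finset Filter MvPolynomial NumberField Module MeasureTheory
open Pool.Agent.N220.CF (Approx finitely_family)
open Pool.Agent.Results.MP_87f965_ag.ThinFamilyNormForms (ApproximationOutside RealCond Admissible Covers)

/-- the conditions on the fields, the polynomial and the coefficients -/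
structure Conditions {L : Type} [Field L] [NumberField L] {r s : ℕ} (K : Fin r → IntermediateField ℚ L)
    (f : MvPolynomial (Fin (s + 1)) ℤ) (c : Fin r → ℤ) : Prop where
  fields : ∀ i, Admissible (K i)
  degree : 2 ≤ f.totalDegree
  nonzero : ∀ i, c i ≠ 0

/-- the conditions under which all coefficients are `1` and all finite sets of primes are allowed -/
structure StrongConditions {L : Type} [Field L] [NumberField L] {r s : ℕ} (K : Fin r → IntermediateField ℚ L)
    (f : MvPolynomial (Fin (s + 1)) ℤ) : Prop where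
  fields : ∀ i, Admissible (K i)
  degree : 2 ≤ f.totalDegree
  coprime : ∀ i, f.totalDegree.Coprime (finrank ℚ (K i))
  parity : Odd f.totalDegree ∨ ∀ i, ∃ x : K i, Algebra.norm ℚ x = -1

/-- approximation outside the thin set for `V_k` and `V_(-k)`, if they satisfy the condition at the real place -/
def Holds {L : Type} [Field L] [NumberField L] {r s : ℕ} (K : Fin r → IntermediateField ℚ L)
    (f : MvPolynomial (Fin (s + 1)) ℤ) (c : Fin r → ℤ) (T : Finset Nat.Primes) (N : ℕ)
    (Θ : Finset (Polynomial (MvPolynomial (Fin (s + 1)) ℤ))) (k : ℤ) : Prop :=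
  (RealCond K f c k → ApproximationOutside K f c T N Θ k) ∧ (RealCond K f c (-k) → ApproximationOutside K f c T N Θ (-k))

/-- approximation outside the thin set for `V_k` and `V_(-k)`, all coefficients `1` -/
def HoldsAll {L : Type} [Field L] [NumberField L] {r s : ℕ} (K : Fin r → IntermediateField ℚ L)
    (f : MvPolynomial (Fin (s + 1)) ℤ) (T : Finset Nat.Primes) (N : ℕ)
    (Θ : Finset (Polynomial (MvPolynomial (Fin (s + 1)) ℤ))) (k : ℤ) : Prop :=
  ApproximationOutside K f (fun _ => 1) T N Θ k ∧ ApproximationOutside K f (fun _ => 1) T N Θ (-k)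

/-- **Rational points outside thin sets at the convergents of almost every number.** Here `L` is the `m`-th cyclotomic field, and the `Kᵢ` are
any of its subfields. -/
theorem result (m : ℕ) [NeZero m] (L : Type) [Field L] [NumberField L] [IsCyclotomicExtension {m} ℚ L] (r s : ℕ) :
    (∃ T₀ : (Fin r → IntermediateField ℚ L) → MvPolynomial (Fin (s + 1)) ℤ → (Fin r → ℤ) → Finset Nat.Primes,
      (∀ n : ℕ, 1 ≤ n → ∀ᵐ α : Fin n → ℝ, ∀ (K : Fin r → IntermediateField ℚ L) (f : MvPolynomial (Fin (s + 1)) ℤ) (c : Fin r → ℤ),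
        Conditions K f c → ∀ T : Finset Nat.Primes, T₀ K f c ⊆ T → ∀ (N : ℕ)
          (Θ : Finset (Polynomial (MvPolynomial (Fin (s + 1)) ℤ))), (∀ P ∈ Θ, P ∈ Covers s) → ∀ b : ℝ,
          {q : ℕ | Approx b (1 / n) α q ∧ ¬ Holds K f c T N Θ q}.Finite) ∧
      ∀ᵐ ξ : ℝ, ∀ (K : Fin r → IntermediateField ℚ L) (f : MvPolynomial (Fin (s + 1)) ℤ) (c : Fin r → ℤ),
        Conditions K f c → ∀ T : Finset Nat.Primes, T₀ K f c ⊆ T → ∀ (N : ℕ)
          (Θ : Finset (Polynomial (MvPolynomial (Fin (s + 1)) ℤ))), (∀ P ∈ Θ, P ∈ Covers s) → ∀ᶠ n : ℕ in atTop,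
          Holds K f c T N Θ (ξ.convergent n).den) ∧
    (∀ n : ℕ, 1 ≤ n → ∀ᵐ α : Fin n → ℝ, ∀ (K : Fin r → IntermediateField ℚ L) (f : MvPolynomial (Fin (s + 1)) ℤ),
      StrongConditions K f → ∀ (T : Finset Nat.Primes) (N : ℕ)
        (Θ : Finset (Polynomial (MvPolynomial (Fin (s + 1)) ℤ))), (∀ P ∈ Θ, P ∈ Covers s) → ∀ b : ℝ,
        {q : ℕ | Approx b (1 / n) α q ∧ ¬ HoldsAll K f T N Θ q}.Finite) ∧
    ∀ᵐ ξ : ℝ, ∀ (K : Fin r → IntermediateField ℚ L) (f : MvPolynomial (Fin (s + 1)) ℤ),
      StrongConditions K f → ∀ (T : Finset Nat.Primes) (N : ℕ)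
        (Θ : Finset (Polynomial (MvPolynomial (Fin (s + 1)) ℤ))), (∀ P ∈ Θ, P ∈ Covers s) → ∀ᶠ n : ℕ in atTop, HoldsAll K f T N Θ (ξ.convergent n).den := by
  classical
  haveI := Pool.Agent.N220.CF.finite_if L
  haveI := Pool.Agent.N220.CF.countable_mv (s + 1)
  haveI := Pool.Agent.N220.CF.countable_polymv (s + 1)
  constructor
  · have h0 : ∀ (K : Fin r → IntermediateField ℚ L) (f : MvPolynomial (Fin (s + 1)) ℤ) (c : Fin r → ℤ), ∃ T₀ : Finset Nat.Primes,
        Conditions K f c → ∀ T : Finset Nat.Primes, T₀ ⊆ T → ∀ (N U : ℕ)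
        (Θ : Finset (Polynomial (MvPolynomial (Fin (s + 1)) ℤ))), (∀ P ∈ Θ, P ∈ Covers s) → ∃ X₀ : ℕ, ∀ X : ℕ, X₀ ≤ X →
        (#{k ∈ Icc (-(X : ℤ)) X | ¬ (RealCond K f c k → ApproximationOutside K f c T N Θ k)} : ℝ) ≤ X / Real.log X ^ U := by
      intro K f c
      by_cases hc : Conditions K f c
      · obtain ⟨T₀, h⟩ := (Pool.Agent.Results.MP_87f965_ag.ThinFamilyNormForms.result m K hc.fields f hc.degree).1 c hc.nonzero
        refine ⟨T₀, fun _ T hT N U Θ hΘ => ?_⟩
        obtain ⟨X₀, hX₀⟩ := h T hT N U Θ hΘ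
        refine ⟨X₀, fun X hX => le_trans (le_of_eq ?_) (hX₀ X hX)⟩
        congr!
      · exact ⟨∅, fun h => absurd h hc⟩
    choose T₀ hT₀ using h0
    have h := finitely_family (ι := {x : (Fin r → IntermediateField ℚ L) × MvPolynomial (Fin (s + 1)) ℤ × (Fin r → ℤ) ×
      Finset Nat.Primes × ℕ × Finset (Polynomial (MvPolynomial (Fin (s + 1)) ℤ)) // Conditions x.1 x.2.1 x.2.2.1 ∧
        T₀ x.1 x.2.1 x.2.2.1 ⊆ x.2.2.2.1 ∧ ∀ P ∈ x.2.2.2.2.2, P ∈ Covers s})
      (fun x n => RealCond x.1.1 x.1.2.1 x.1.2.2.1 n →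
        ApproximationOutside x.1.1 x.1.2.1 x.1.2.2.1 x.1.2.2.2.1 x.1.2.2.2.2.1 x.1.2.2.2.2.2 n)
      (U := 2) le_rfl (by
        rintro ⟨⟨K, f, c, T, N, Θ⟩, hc, hT, hΘ⟩
        obtain ⟨X₀, hX₀⟩ := hT₀ K f c hc T hT N 2 Θ hΘ
        refine ⟨X₀, fun X hX => le_trans (le_of_eq ?_) (hX₀ X hX)⟩
        congr!)
    refine ⟨T₀, fun n hn => ?_, ?_⟩
    · filter_upwards [h.1 n hn] with α hα K f c hc T hT N Θ hΘ b
      exact hα ⟨⟨K, f, c, T, N, Θ⟩, hc, hT, hΘ⟩ b
    · filter_upwards [h.2] with ξ hξ K f c hc T hT N Θ hΘ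
      exact hξ ⟨⟨K, f, c, T, N, Θ⟩, hc, hT, hΘ⟩
  · have h := finitely_family (ι := {x : (Fin r → IntermediateField ℚ L) × MvPolynomial (Fin (s + 1)) ℤ × Finset Nat.Primes × ℕ ×
      Finset (Polynomial (MvPolynomial (Fin (s + 1)) ℤ)) // StrongConditions x.1 x.2.1 ∧ ∀ P ∈ x.2.2.2.2, P ∈ Covers s})
      (fun x n => ApproximationOutside x.1.1 x.1.2.1 (fun _ => 1) x.1.2.2.1 x.1.2.2.2.1 x.1.2.2.2.2 n)
      (U := 2) le_rfl (by
        rintro ⟨⟨K, f, T, N, Θ⟩, hc, hΘ⟩
        obtain ⟨X₀, hX₀⟩ := (Pool.Agent.Results.MP_87f965_ag.ThinFamilyNormForms.result m K hc.fields f hc.degree).2 hc.coprime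
          hc.parity T N 2 Θ hΘ
        refine ⟨X₀, fun X hX => le_trans (le_of_eq ?_) (hX₀ X hX)⟩
        congr!)
    refine ⟨fun n hn => ?_, ?_⟩
    · filter_upwards [h.1 n hn] with α hα K f hc T N Θ hΘ b
      exact hα ⟨⟨K, f, T, N, Θ⟩, hc, hΘ⟩ b
    · filter_upwards [h.2] with ξ hξ K f hc T N Θ hΘ
      exact hξ ⟨⟨K, f, T, N, Θ⟩, hc, hΘ⟩

end Pool.Agent.Results.MP_87f965_ag.ConvergentDenominators
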