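import Mathlib
import Pool.Agent.N741.HB.Cor
import Pool.Agent.Y902.GN.FinB

/-!
# Rational points on finite covers of affine space: the structure theorem

Let `P 1, …, P q` be polynomials in `Z` with coefficients in `ℤ[x 1, …, x n]`, of degrees at most
`Y ^ δ` in `Z` and in `x`, with coefficients at most `exp (Y ^ δ)`. Let `W → 𝔸 ^ n` be the fibre
product of the covers `P k (x, Z k) = 0`. We consider the integral points `x` in the box
`1 ≤ x j ≤ Y` over which `W` has an unramified rational point.

For all `n`, `q` and `ε > 0` there are `K` and `δ > 0` such that for all `Y ≥ 1` and all such `P k`: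

* there are at most `Y ^ ε` irreducible subvarieties `V i` of `𝔸 ^ n`, of complexity at most `K`, with
  coefficients at most `(Y + 2) ^ K`, such that each `P k` has over the function field of each `V i`
  a factor of degree between `1` and `K`, and each such `x` is on a `V i`;
* `V i` is not the whole space if some `P k` is irreducible over `ℚ(x)` and of degree `> K ^ 2`;
* if there is no subvariety of positive dimension and of complexity `≤ K`, with coefficients
  `≤ (Y + 2) ^ K`, over which all `P k` have factors of degree between `1` and `K`, then there are at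
  most `Y ^ ε` such `x`.

A subvariety (`Chart`) is given by independent coordinates `t`, an irreducible polynomial
`h (t, Θ)` and the coordinates `x j = b j (t, Θ) / b0 (t)`; all these polynomials have degree at most
`K`.

For projective space `P ^ (n - 1)` take `P k` homogeneous in `x`: this is a form of Hilbert's
irreducibility theorem (the Hilbert property) for affine and projective space which is uniform in
the covers, of degree up to `Y ^ δ`, with coefficients up to `exp (Y ^ δ)`.

Method: ultraproduct of counterexamples, determinant method with the powers of a large root as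
additional functions, resultants, and a covering lemma for the family of all subvarieties of bounded
complexity. Parts of the proof by helpers 20, 26, 27, 147, 340, 368, 459, 572, 692, 966 (see
Pool/Agent/N741/HB/Thm.lean and Thm2.lean); it uses the library of helper902.
-/

set_option autoImplicit false

namespace Pool.Agent.Results.MP_87f965_ag.FiniteCovers

open MvPolynomial Pool.Agent.N741.HB Pool.Agent.N741.HB.Gdm2

/-- the integral points in the box over which the fibre product of the covers `P k (x, Z) = 0` has
an unramified rational point: all `P k (x, Z)` have simple rational roots -/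
def Pts {n q : ℕ} (P : Fin q → Polynomial (MvPolynomial (Fin n) ℤ)) (Y : ℕ) : Set (Fin n → ℤ) :=
  {x | (∀ j, 1 ≤ x j ∧ x j ≤ (Y : ℤ)) ∧ ∀ k, eval x (P k).leadingCoeff ≠ 0 ∧
    ∃ z : ℚ, Polynomial.aeval z ((P k).map (eval x)) = 0 ∧
      Polynomial.aeval z (Polynomial.derivative ((P k).map (eval x))) ≠ 0}

/-- all polynomials which vanish on `V` vanish at `x` -/
def On {n : ℕ} (V : Chart n) (x : Fin n → ℤ) : Prop :=
  ∀ p : MvPolynomial (Fin n) ℤ, (∀ (L : Type) [Field L]
    (φ : MvPolynomial (Option (Fin V.d)) ℤ →+* L), (∀ f, φ f = 0 ↔ InP V.h f) →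
      eval₂ (Int.castRingHom L) (fun j => φ (V.b j) / φ (rename some V.b0)) p = 0) →
    eval x p = 0

/-- **Structure theorem for the rational points on finite covers.** -/
theorem result (n q : ℕ) (ε : ℝ) (hε : 0 < ε) : ∃ (K : ℕ) (δ : ℝ), 0 < δ ∧ ∀ Y : ℕ, 1 ≤ Y →
    ∀ P : Fin q → Polynomial (MvPolynomial (Fin n) ℤ),
      (∀ k, ((P k).natDegree : ℝ) ≤ (Y : ℝ) ^ δ ∧ ∀ l,
        (((P k).coeff l).totalDegree : ℝ) ≤ (Y : ℝ) ^ δ ∧
        ∀ m, ((|((P k).coeff l).coeff m| : ℤ) : ℝ) ≤ Real.exp ((Y : ℝ) ^ δ)) →
      (∃ (r : ℕ) (V : Fin r → Chart n), (r : ℝ) ≤ (Y : ℝ) ^ ε ∧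
        (∀ i, (V i).Cx K Y ∧ Function.Injective (V i).ι ∧
          (∀ b, InP (V i).h (rename some (V i).b0 * X (some b) - (V i).b ((V i).ι b))) ∧
          (∀ k, (V i).Factor (P k) K) ∧
          ((∃ k, Irreducible ((P k).map (algebraMap (MvPolynomial (Fin n) ℤ)
            (FractionRing (MvPolynomial (Fin n) ℤ)))) ∧ K ^ 2 < (P k).natDegree) →
              (V i).d < n)) ∧
        ∀ x ∈ Pts P Y, ∃ i, On (V i) x) ∧
      ((¬ ∃ V : Chart n, 1 ≤ V.d ∧ V.Cx K Y ∧ Function.Injective V.ι ∧
          (∀ b, InP V.h (rename some V.b0 * X (some b) - V.b (V.ι b))) ∧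
          ∀ k, V.Factor (P k) K) → ((Pts P Y).ncard : ℝ) ≤ (Y : ℝ) ^ ε) := by
  classical
  obtain ⟨K, δ, hδ, H⟩ := main n q ε hε
  refine ⟨K, δ, hδ, fun Y hY P hP => ?_⟩
  obtain ⟨r, V, hr, hV, hx⟩ := H Y hY P hP
  refine ⟨⟨r, V, hr, fun i => ⟨(hV i).1.cx, (hV i).1.inj, (hV i).1.coh, (hV i).2, ?_⟩,
    fun x hxP => hx x hxP.1 hxP.2⟩, fun hno => ?_⟩
  · rintro ⟨k, h1, h2⟩
    exact dim_lt (hV i).1 h1 (by rw [← pow_two]; exact h2) ((hV i).2 k)
  · have hd : ∀ i, (V i).d = 0 := by
      intro i
      by_contra hne
      exact hno ⟨V i, by omega, (hV i).1.cx, (hV i).1.inj, (hV i).1.coh, (hV i).2⟩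
    refine (Pool.Agent.Y902.GN.fin_of_bound _ _ fun T hT => ?_).2
    have hT' : ∀ x ∈ T, ∃ i, Gdm2.On (V i) x := fun x hxT =>
      hx x (hT x hxT).1 (hT x hxT).2
    have hcard : T.card ≤ r := by
      rcases Nat.eq_zero_or_pos r with h0 | h0
      · subst h0
        rw [Nat.le_zero, Finset.card_eq_zero, Finset.eq_empty_iff_forall_notMem]
        intro x hxT
        obtain ⟨i, -⟩ := hT' x hxT
        exact i.elim0
      · have : Nonempty (Fin r) := ⟨⟨0, h0⟩⟩
        choose! i hi using hT'
        have h1 := Finset.card_le_card_of_injOn (s := T) (t := (Finset.univ : Finset (Fin r))) i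
          (fun _ _ => Finset.mem_univ _) (fun x hxT x' hxT' hii => by
            have h2 := hi x hxT
            have h3 := hi x' hxT'
            rw [hii] at h2
            exact Gdm2.On.unique (hV _).1.cx (hd _) h2 h3)
        rwa [Finset.card_univ, Fintype.card_fin] at h1
    exact le_trans (by exact_mod_cast hcard) hr

end Pool.Agent.Results.MP_87f965_ag.FiniteCovers
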