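import Pool.Agent.N918.MS.Cnt
import Pool.Agent.Results.MP_87f965_ag.ThinFamilyNormForms

/-!
# Rational points outside thin sets on the varieties `N_{Kᵢ/ℚ}(zᵢ) = cᵢ (f(t) + k)`, for random and metric sequences of `k`

Let `L` be a cyclotomic field, let `f` be an integral polynomial of degree at least two in any number of variables, let the
`cᵢ` be nonzero integers, `i < r`, and let the `Kᵢ` be subfields of `L` with class numbers prime to their degrees, such that
`-1` is a norm or all norms are nonnegative. There are finite sets `T₀(K, f, c)` of primes such that the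
following holds, for ALL these data at once, outside of ONE event (set) of probability (measure) zero.

Say that `k` is good for `K`, `f`, `c`, a finite set `T` of primes, a level `N` and a thin set given by `Θ`, if the variety
`V_k : N_{Kᵢ/ℚ}(zᵢ) = cᵢ (f(t) + k) ≠ 0` has the property of the starting theorem `ThinFamilyNormForms`: under the necessary
condition at the real place every family of `p`-adic points, `p` in `T`, of level `N` is approximated in the coordinates `t` by a
rational point with `t` outside the thin set (`T = ∅`: there are rational points outside the thin set). The data are `Allowed`, if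
`T ⊇ T₀(K, f, c)` or if they are `Strong`: all `cᵢ` are `1`, `deg f` is prime to the degrees of the `Kᵢ` and it is odd or `-1` is
a norm for all `i`; for strong data `T` is any finite set of primes, and there is no condition at the real place. Then

* for random integers `X_n`, of ANY dependence, with `P (X_n = k) ≤ C / (|k| + 1)`, almost surely all but finitely many `X_n`
  are good, if `|X_n| ≥ exp (n ^ δ)` outside of events with a convergent sum of probabilities; all but `M / (log M) ^ U` of
  the `X_n`, `n < M`, are good for all `U`, if `∑_{n < M} P (|X_n| < M ^ δ) ≤ C M ^ (1 - δ)`;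
* for all linear forms `a_n` in `d` variables with norms at least `exp (n ^ δ)`, for almost all vectors `α`, all but finitely
  many `⌊a_n (α)⌋` are good; the same for `⌊h_n (x)⌋`, for almost all `x` in an interval on which `|h_n'| ≥ c |h_n|` and
  `|h_n| ≥ exp (n ^ δ)`; the same for `⌊ξ x ^ n⌋`, for all `ξ ≠ 0` and almost all `x > 1`;
* for ANY sequence of real numbers `a_n` with mutual distances at least `δ > 0`, in any order, and almost all real `α` all but
  `M / (log M) ^ U` of the `⌊a_n α⌋`, `n < M`, are good, for all `U`.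
-/

set_option autoImplicit false

namespace Pool.Agent.Results.MP_87f965_ag.MetricSequences

open Finset Filter MvPolynomial NumberField Module MeasureTheory
open Pool.Agent.N918.MS (AlmostAlways RandomAndMetric randomAndMetric)
open Pool.Agent.Results.MP_87f965_ag.ThinFamilyNormForms (ApproximationOutside RealCond Admissible Covers)

/-- the data: subfields `Kᵢ` of `L`, a polynomial `f`, coefficients `cᵢ`, a finite set `T` of primes, a level `N` and
polynomials `Θ` which give a thin set -/
structure Data (L : Type) [Field L] [NumberField L] where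
  r : ℕ
  s : ℕ
  K : Fin r → IntermediateField ℚ L
  f : MvPolynomial (Fin (s + 1)) ℤ
  c : Fin r → ℤ
  T : Finset Nat.Primes
  N : ℕ
  Θ : Finset (Polynomial (MvPolynomial (Fin (s + 1)) ℤ))

variable {L : Type} [Field L] [NumberField L]

/-- the conditions on the fields, the polynomial and the coefficients -/
structure Data.Conditions (x : Data L) : Prop where
  fields : ∀ i, Admissible (x.K i)
  degree : 2 ≤ x.f.totalDegree
  nonzero : ∀ i, x.c i ≠ 0
  thin : ∀ P ∈ x.Θ, P ∈ Covers x.s

/-- the conditions under which all finite sets of primes are allowed -/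
structure Data.Strong (x : Data L) : Prop where
  one : ∀ i, x.c i = 1
  coprime : ∀ i, x.f.totalDegree.Coprime (finrank ℚ (x.K i))
  parity : Odd x.f.totalDegree ∨ ∀ i, ∃ y : x.K i, Algebra.norm ℚ y = -1

/-- the allowed data, for given sets `T₀` of primes -/
def Data.Allowed (T₀ : ∀ {r s : ℕ}, (Fin r → IntermediateField ℚ L) → MvPolynomial (Fin (s + 1)) ℤ → (Fin r → ℤ) → Finset Nat.Primes)
    (x : Data L) : Prop :=
  x.Conditions ∧ (T₀ x.K x.f x.c ⊆ x.T ∨ x.Strong)

/-- `V_k` has the property of approximation outside the thin set, if the data are `Strong` or if `V_k` satisfies the condition at the real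
place -/
def Good (x : Data L) (k : ℤ) : Prop :=
  x.Strong ∨ RealCond x.K x.f x.c k → ApproximationOutside x.K x.f x.c x.T x.N x.Θ k

instance : Countable (Data L) := by
  have := Pool.Agent.N918.MS.finite_if L
  have := Pool.Agent.N918.MS.countable_mv
  have := Pool.Agent.N918.MS.countable_polymv
  have h : Function.Surjective (fun y : (Σ r : ℕ, Σ s : ℕ, (Fin r → IntermediateField ℚ L) × MvPolynomial (Fin (s + 1)) ℤ ×
      (Fin r → ℤ) × Finset Nat.Primes × ℕ × Finset (Polynomial (MvPolynomial (Fin (s + 1)) ℤ))) =>
      (⟨y.1, y.2.1, y.2.2.1, y.2.2.2.1, y.2.2.2.2.1, y.2.2.2.2.2.1, y.2.2.2.2.2.2.1, y.2.2.2.2.2.2.2⟩ : Data L)) :=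
    fun x => ⟨⟨x.r, x.s, x.K, x.f, x.c, x.T, x.N, x.Θ⟩, rfl⟩
  exact h.countable

/-- **Rational points outside thin sets, along random and metric sequences.** Here `L` is the `m`-th cyclotomic field. -/
theorem result (m : ℕ) [NeZero m] (L : Type) [Field L] [NumberField L] [IsCyclotomicExtension {m} ℚ L] :
    ∃ T₀ : ∀ {r s : ℕ}, (Fin r → IntermediateField ℚ L) → MvPolynomial (Fin (s + 1)) ℤ → (Fin r → ℤ) → Finset Nat.Primes,
      RandomAndMetric (fun (x : {x : Data L // x.Allowed T₀}) k => Good x.1 k) := by
  classical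
  have h0 : ∀ (r s : ℕ) (K : Fin r → IntermediateField ℚ L) (f : MvPolynomial (Fin (s + 1)) ℤ) (c : Fin r → ℤ),
      ∃ T₀ : Finset Nat.Primes, (∀ i, Admissible (K i)) ∧ 2 ≤ f.totalDegree ∧ (∀ i, c i ≠ 0) →
      ∀ T : Finset Nat.Primes, T₀ ⊆ T → ∀ (N : ℕ) (Θ : Finset (Polynomial (MvPolynomial (Fin (s + 1)) ℤ))),
      (∀ P ∈ Θ, P ∈ Covers s) → AlmostAlways (fun k => RealCond K f c k → ApproximationOutside K f c T N Θ k) := by
    intro r s K f c
    by_cases hc : (∀ i, Admissible (K i)) ∧ 2 ≤ f.totalDegree ∧ (∀ i, c i ≠ 0)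
    · obtain ⟨T₀, h⟩ := (Pool.Agent.Results.MP_87f965_ag.ThinFamilyNormForms.result m K hc.1 f hc.2.1).1 c hc.2.2
      refine ⟨T₀, fun _ T hT N Θ hΘ => AlmostAlways.of_card fun U => ?_⟩
      obtain ⟨X₀, hX₀⟩ := h T hT N U Θ hΘ
      refine ⟨X₀, fun X hX => le_trans (le_of_eq ?_) (hX₀ X hX)⟩
      congr!
    · exact ⟨∅, fun h => absurd h hc⟩
  choose T₀ hT₀ using h0
  refine ⟨fun {r s} => T₀ r s, randomAndMetric _ ?_⟩
  rintro ⟨x, hx, h⟩
  by_cases hs : x.Strong
  · obtain ⟨r, s, K, f, c, T, N, Θ⟩ := x
    obtain rfl : c = fun _ => 1 := funext hs.one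
    refine AlmostAlways.of_card fun U => ?_
    obtain ⟨X₀, hX₀⟩ := (Pool.Agent.Results.MP_87f965_ag.ThinFamilyNormForms.result m K hx.fields f hx.degree).2 hs.coprime
      hs.parity T N U Θ hx.thin
    refine ⟨X₀, fun X hX => le_trans ?_ (hX₀ X hX)⟩
    have : ({k ∈ Icc (-(X : ℤ)) X | ¬ Good (⟨r, s, K, f, fun _ => 1, T, N, Θ⟩ : Data L) k} : Finset ℤ) ⊆
        {k ∈ Icc (-(X : ℤ)) X | ¬ ApproximationOutside K f (fun _ => 1) T N Θ k} := by
      intro k hk
      rw [Finset.mem_filter] at hk ⊢
      exact ⟨hk.1, fun h => hk.2 fun _ => h⟩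
    refine le_trans (Nat.cast_le.2 (Finset.card_le_card this)) (le_of_eq ?_)
    congr!
  · have h1 := hT₀ x.r x.s x.K x.f x.c ⟨hx.fields, hx.degree, hx.nonzero⟩ x.T (h.resolve_right hs) x.N x.Θ hx.thin
    have h2 : Good x = fun k => RealCond x.K x.f x.c k → ApproximationOutside x.K x.f x.c x.T x.N x.Θ k := by
      funext k
      simp only [Good, hs, false_or]
    exact h2 ▸ h1

end Pool.Agent.Results.MP_87f965_ag.MetricSequences
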